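import Mathlib
import Pool.Agent.H6.Lkk2

/-! The number of antichains of the restricted Young lattice `L(n,n)`. -/

namespace Pool.Agent.Results.MP_269158_co.Order

open Finset Pool.Agent.H6.Lkk Pool.Agent.H6.Lkk2

/-- `L(n,n)`: partitions `n ≥ λ_1 ≥ ⋯ ≥ λ_n ≥ 0`. -/
abbrev L (n : ℕ) : Type := {x : Fin n → ℕ // Antitone x ∧ ∀ i, x i ≤ n}

/-- Containment of diagrams. -/
def Le {n : ℕ} (x y : L n) : Prop := ∀ i, x.1 i ≤ y.1 i

/-- `A(n)`: the number of antichains of `L(n,n)`, the empty one included. -/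
noncomputable def A (n : ℕ) : ℕ := {U : Set (L n) | IsAntichain Le U}.ncard

def psi {n : ℕ} (x : L n) : Finset ℕ := phi (fun i => x.1 (Fin.rev i))

theorem mono {n : ℕ} (x : L n) : Monotone (fun i => x.1 (Fin.rev i)) :=
  fun _ _ h => x.2.1 (Fin.rev_le_rev.2 h)

theorem le_of {n : ℕ} {x y : L n}
    (h : ∀ t, ((psi y).filter (· < t)).card ≤ ((psi x).filter (· < t)).card) : Le x y := by
  intro i
  have := le_of_dom (mono x) (mono y) h (Fin.rev i)
  simpa using this

theorem psi_inj {n : ℕ} : Function.Injective (psi (n := n)) := by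
  intro x y h
  have h1 : Le x y := le_of fun t => by rw [h]
  have h2 : Le y x := le_of fun t => by rw [h]
  exact Subtype.ext (funext fun i => le_antisymm (h1 i) (h2 i))

theorem psi_mem {m n : ℕ} (hk : m + 1 = 2 * n) (x : L n) : psi x ∈ Om m n :=
  phi_mem hk (mono x) fun _ => x.2.2 _

theorem psi_surj {m n : ℕ} (hk : m + 1 = 2 * n) {S : Finset ℕ} (hS : S ∈ Om m n) :
    ∃ x : L n, psi x = S := by
  obtain ⟨x, h1, h2, h3⟩ := phi_surj hk hS
  refine ⟨⟨fun i => x (Fin.rev i), fun _ _ h => h1 (Fin.rev_le_rev.2 h), fun _ => h2 _⟩, ?_⟩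
  simpa [psi] using h3

theorem finiteL {m n : ℕ} (hk : m + 1 = 2 * n) : Finite (L n) :=
  Finite.of_injective (fun x : L n => (⟨psi x, psi_mem hk x⟩ : Om m n))
    fun _ _ h => psi_inj (congrArg Subtype.val h)

open Classical in
theorem A_le {m n : ℕ} (hk : m + 1 = 2 * n) :
    A n ≤ ((Om m n).powerset.filter (Indep Dom)).card := by
  have := finiteL hk
  rw [A, ← Set.ncard_coe_finset]
  refine Set.ncard_le_ncard_of_injOn (fun U => (Set.toFinite U).toFinset.image psi) ?_ ?_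
    (Set.toFinite _)
  · intro U hU
    refine mem_coe.2 (mem_filter.2 ⟨mem_powerset.2 ?_, ?_⟩)
    · intro S hS
      obtain ⟨x, _, rfl⟩ := mem_image.1 hS
      exact psi_mem hk x
    · intro S hS T hT h
      obtain ⟨x, hx, rfl⟩ := mem_image.1 hS
      obtain ⟨y, hy, rfl⟩ := mem_image.1 hT
      refine hU ((Set.Finite.mem_toFinset _).1 hx) ((Set.Finite.mem_toFinset _).1 hy) ?_
        (le_of h.1)
      rintro rfl
      exact lt_irrefl _ h.2
  · intro U _ V _ h
    exact Set.Finite.toFinset_inj.1 (image_injective psi_inj h)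

open Classical in
theorem le_A {m n : ℕ} (hk : m + 1 = 2 * n) (r : ℕ) :
    2 ^ ((Om m n).filter (fun S => ∑ a ∈ S, a = r)).card ≤ A n := by
  have := finiteL hk
  rw [A, ← card_powerset, ← Set.ncard_coe_finset]
  refine Set.ncard_le_ncard_of_injOn (fun I => {x | psi x ∈ I}) ?_ ?_ (Set.toFinite _)
  · intro I hI x hx y hy hxy h
    have hI' := mem_powerset.1 (mem_coe.1 hI)
    have a1 := (mem_filter.1 (hI' hx)).2
    have a2 := (mem_filter.1 (hI' hy)).2
    rw [psi, sum_phi (mono x)] at a1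
    rw [psi, sum_phi (mono y)] at a2
    have a3 : ∑ i, x.1 (Fin.rev i) = ∑ i, y.1 (Fin.rev i) := by omega
    have a4 := (sum_eq_sum_iff_of_le fun i _ => h (Fin.rev i)).1 a3
    refine hxy (Subtype.ext (funext fun i => ?_))
    simpa using a4 (Fin.rev i) (mem_univ _)
  · intro I hI J hJ h
    have hI' := mem_powerset.1 (mem_coe.1 hI)
    have hJ' := mem_powerset.1 (mem_coe.1 hJ)
    have h' := Set.ext_iff.1 h
    ext S
    constructor
    · intro hS
      obtain ⟨x, rfl⟩ := psi_surj hk (mem_filter.1 (hI' hS)).1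
      exact (h' x).1 hS
    · intro hS
      obtain ⟨x, rfl⟩ := psi_surj hk (mem_filter.1 (hJ' hS)).1
      exact (h' x).2 hS

theorem result : ∃ c C : ℝ, 0 < c ∧ 0 < C ∧ ∃ n₀ : ℕ, ∀ n : ℕ, n₀ ≤ n →
    c * (((2 * n).choose n : ℝ) / (n : ℝ) ^ (3 / 2 : ℝ)) ≤ Real.logb 2 (A n) ∧
      Real.logb 2 (A n) ≤ C * (((2 * n).choose n : ℝ) / (n : ℝ) ^ (3 / 2 : ℝ)) := by
  classical
  refine ⟨1 / 200, 5 * 10 ^ 13, by norm_num, by norm_num, 10000, fun n hn => ?_⟩
  have hkR : (10000 : ℝ) ≤ n := by exact_mod_cast hn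
  have hk0 : (0 : ℝ) < n := by linarith
  have hm : (2 * n - 1) + 1 = 2 * n := by omega
  have h2 : ((2 * n).choose n : ℝ) / (n : ℝ) ^ (3 / 2 : ℝ) =
      √(n : ℝ) / (n : ℝ) ^ 2 * ((2 * n).choose n : ℝ) := by
    have : √(n : ℝ) / (n : ℝ) ^ 2 = ((n : ℝ) ^ (3 / 2 : ℝ))⁻¹ := by
      rw [Real.sqrt_eq_rpow, ← Real.rpow_natCast, ← Real.rpow_sub hk0, ← Real.rpow_neg hk0.le]
      norm_num
    rw [this]; ring
  obtain ⟨r, hr⟩ := big_level hm
  have h3 := le_A hm r
  have hA : (0 : ℝ) < A n := by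
    have : 0 < A n := lt_of_lt_of_le (by positivity) h3
    exact_mod_cast this
  rw [h2, ← mul_assoc, ← mul_assoc]
  constructor
  · refine hr.trans ?_
    rw [Real.le_logb_iff_rpow_le (by norm_num) hA, Real.rpow_natCast]
    exact_mod_cast h3
  · rw [Real.logb_le_iff_le_rpow (by norm_num) hA]
    refine le_trans ?_ (upper hm hn)
    exact_mod_cast A_le hm

end Pool.Agent.Results.MP_269158_co.Order
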